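import Pool.Agent.W529.ST.Hyp

/-!
# The odd moments of the quadratic twists of a hyperelliptic curve

`F` is a number field (`ℚ` in the problem) and `f ∈ 𝓞_F[x]` separable; `C_d`, `d ∈ 𝓞_F` nonzero, is the
smooth projective curve `d y² = f(x)`.  If `C = C_1` is generic, so are all its twists `C_d`.  For `k`
and `m` odd the Sato-Tate conjecture says that the `m`-th moment of the coefficient `a_k` of the
normalised `L`-polynomials of `C_d` tends to `c_k(m; g) = 0`, for every `d`.  We show that at every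
large scale `N` the sum of the squares of these moments over the twists is bounded by the `2m`-th
moment of `a_k` for `C` alone.
-/

set_option autoImplicit false

namespace Pool.Agent.Results.MP_3da4c4_nt.OddMoments

open NumberField IsDedekindDomain Filter Topology Polynomial

/-- Number of points of the smooth projective curve `d y² = f(x)` over the extension of degree `j` of
the finite field `k`, that is, the field of the elements of the algebraic closure of `k` that are
fixed by the `j`-th power of the Frobenius of `k`: the affine points, and the points at infinity; there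
is one if `deg f` is odd, and if `deg f = 2g + 2` with leading coefficient `c` they are the solutions
`z` of `d z² = c` (`z = y / x^{g+1}`). -/
noncomputable def pointCount (k : Type) [Field k] (f : k[X]) (d : k) (j : ℕ) : ℕ :=
  Nat.card {P : AlgebraicClosure k × AlgebraicClosure k //
    P.1 ^ (Nat.card k ^ j) = P.1 ∧ P.2 ^ (Nat.card k ^ j) = P.2 ∧
    algebraMap k (AlgebraicClosure k) d * P.2 ^ 2 = aeval P.1 f} +
  if Odd f.natDegree then 1 else
    Nat.card {z : AlgebraicClosure k // z ^ (Nat.card k ^ j) = z ∧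
      algebraMap k (AlgebraicClosure k) d * z ^ 2 = algebraMap k (AlgebraicClosure k) f.leadingCoeff}

/-- The coefficients `c_i` of `L(T) = (1 - T)(1 - q T) exp(∑ N_j T^j / j) = exp(∑ t_j T^j / j)`, where
`t_j = N_j - 1 - q^j`: `c_0 = 1` and `(i + 1) c_{i+1} = ∑_{j ≤ i} t_{j+1} c_{i-j}`. -/
noncomputable def coeffL (t : ℕ → ℝ) : ℕ → ℝ
  | 0 => 1
  | i + 1 => (∑ j : Fin (i + 1), t (j + 1) * coeffL t (i - j)) / (i + 1)

section
variable {F : Type} [Field F] [NumberField F]

/-- The coefficient `a_{k,v}` of the normalised `L`-polynomial of `C_d` at `v`: the coefficient of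
`T^k` in `L_v(q^{-1/2} T)`, `q = N(v)`. -/
noncomputable def a (f : (𝓞 F)[X]) (d : 𝓞 F) (k : ℕ) (v : HeightOneSpectrum (𝓞 F)) : ℝ :=
  haveI : v.asIdeal.IsMaximal := v.isMaximal
  letI : Field (𝓞 F ⧸ v.asIdeal) := Ideal.Quotient.field v.asIdeal
  coeffL (fun j => (pointCount (𝓞 F ⧸ v.asIdeal) (f.map (Ideal.Quotient.mk v.asIdeal))
      (Ideal.Quotient.mk v.asIdeal d) j : ℝ) - 1 - (Nat.card (𝓞 F ⧸ v.asIdeal) : ℝ) ^ j) k /
    (Nat.card (𝓞 F ⧸ v.asIdeal) : ℝ) ^ ((k : ℝ) / 2)

/-- `v ∤ 2d`, and the reduction of `f` modulo `v` is separable of the same degree; then `C_d` has good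
reduction at `v`. -/
def Good (f : (𝓞 F)[X]) (d : 𝓞 F) (v : HeightOneSpectrum (𝓞 F)) : Prop :=
  2 * d ∉ v.asIdeal ∧ (f.map (Ideal.Quotient.mk v.asIdeal)).natDegree = f.natDegree ∧
    (f.map (Ideal.Quotient.mk v.asIdeal)).Separable

/-- The `m`-th moment of `a_k` for `C_d` at the scale `N`: the mean of `(a_{k,v})^m` over the good
primes of norm at most `N`. -/
noncomputable def moment (f : (𝓞 F)[X]) (d : 𝓞 F) (k m N : ℕ) : ℝ :=
  (∑ᶠ v : {v : HeightOneSpectrum (𝓞 F) // Ideal.absNorm v.asIdeal ≤ N ∧ Good f d v},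
      a f d k v.1 ^ m) /
    (Nat.card {v : HeightOneSpectrum (𝓞 F) // Ideal.absNorm v.asIdeal ≤ N ∧ Good f d v} : ℝ)

theorem coeffL_twist (ε : ℝ) (t s : ℕ → ℝ) (h : ∀ j, j ≠ 0 → s j = ε ^ j * t j) (i : ℕ) :
    coeffL s i = ε ^ i * coeffL t i := by
  induction i using Nat.strong_induction_on with
  | _ i ih =>
    cases i with
    | zero => rw [coeffL, coeffL, pow_zero, one_mul]
    | succ i =>
      rw [coeffL, coeffL, ← mul_div_assoc, Finset.mul_sum]
      congr 1
      refine Finset.sum_congr rfl fun j _ => ?_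
      rw [h _ (Nat.succ_ne_zero _), ih (i - j) (by omega)]
      have h2 : ε ^ (i + 1) = ε ^ ((j : ℕ) + 1) * ε ^ (i - (j : ℕ)) := by
        rw [← pow_add]
        congr 1
        omega
      rw [h2, Nat.succ_eq_add_one]
      ring

theorem a_twist (f : (𝓞 F)[X]) {d : 𝓞 F} (k : ℕ) {v : HeightOneSpectrum (𝓞 F)}
    (h2d : 2 * d ∉ v.asIdeal) : a f d k v = Pool.Agent.W529.ST.ch d v ^ k * a f 1 k v := by
  unfold a
  rw [← mul_div_assoc]
  congr 1
  refine coeffL_twist _ _ _ (fun j hj => ?_) k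
  have h1 := Pool.Agent.W529.ST.trH_twist v f h2d hj
  have h2 : ∀ e : 𝓞 F, (Pool.Agent.W529.ST.trH v f e j : ℝ) =
      -(((haveI : v.asIdeal.IsMaximal := v.isMaximal
        letI : Field (𝓞 F ⧸ v.asIdeal) := Ideal.Quotient.field v.asIdeal
        pointCount (𝓞 F ⧸ v.asIdeal) (f.map (Ideal.Quotient.mk v.asIdeal))
        (Ideal.Quotient.mk v.asIdeal e) j : ℕ) : ℝ) - 1 -
          (Nat.card (𝓞 F ⧸ v.asIdeal) : ℝ) ^ j) := by
    intro e
    unfold Pool.Agent.W529.ST.trH Pool.Agent.W529.ST.trG Pool.Agent.W529.ST.infPts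
      Pool.Agent.H126T.affPts pointCount
    push_cast
    ring
  rw [h2, h2] at h1
  linear_combination -h1

theorem finite_bad (f : (𝓞 F)[X]) (hf : (f.map (algebraMap (𝓞 F) F)).Separable)
    (hn : 1 ≤ f.natDegree) {d : 𝓞 F} (hd : d ≠ 0) :
    {v : HeightOneSpectrum (𝓞 F) | ¬ Good f d v}.Finite := by
  classical
  have hinj : Function.Injective (algebraMap (𝓞 F) F) := RingOfIntegers.coe_injective
  have hf0 : f ≠ 0 := by
    rintro rfl
    simp at hn
  set c : 𝓞 F := resultant f f.derivative f.natDegree f.derivative.natDegree with hc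
  have hc0 : c ≠ 0 := by
    intro h0
    have h1 := resultant_ne_zero _ _ hf
    rw [derivative_map, natDegree_map_eq_of_injective hinj,
      natDegree_map_eq_of_injective hinj, resultant_map_map, ← hc, h0, map_zero] at h1
    exact h1 rfl
  obtain ⟨p, q, _, _, hpq⟩ := exists_mul_add_mul_eq_C_resultant f f.derivative
    (m := f.natDegree) (n := f.derivative.natDegree) le_rfl le_rfl (Or.inl (by omega))
  rw [← hc] at hpq
  refine (Pool.Agent.W529.ST.finite_mem (mul_ne_zero (mul_ne_zero two_ne_zero hd)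
    (mul_ne_zero (leadingCoeff_ne_zero.2 hf0) hc0))).subset fun v hv => ?_
  by_contra hv'
  have hv' : 2 * d * (f.leadingCoeff * c) ∉ v.asIdeal := hv'
  apply hv
  have : v.asIdeal.IsMaximal := v.isMaximal
  let _ : Field (𝓞 F ⧸ v.asIdeal) := Ideal.Quotient.field v.asIdeal
  set π := Ideal.Quotient.mk v.asIdeal with hπ
  have hlc : π f.leadingCoeff ≠ 0 := by
    intro h0
    apply hv'
    exact Ideal.mul_mem_left _ _ (Ideal.mul_mem_right _ _ (Ideal.Quotient.eq_zero_iff_mem.1 h0))
  have hcc : π c ≠ 0 := by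
    intro h0
    apply hv'
    exact Ideal.mul_mem_left _ _ (Ideal.mul_mem_left _ _ (Ideal.Quotient.eq_zero_iff_mem.1 h0))
  refine ⟨fun h => hv' (Ideal.mul_mem_right _ _ h),
    natDegree_map_of_leadingCoeff_ne_zero _ hlc, ?_⟩
  have h3 := congrArg (Polynomial.map π) hpq
  rw [Polynomial.map_add, Polynomial.map_mul, Polynomial.map_mul, map_C,
    ← derivative_map] at h3
  refine ⟨C (π c)⁻¹ * p.map π, C (π c)⁻¹ * q.map π, ?_⟩
  have h4 : C (π c)⁻¹ * p.map π * f.map π + C (π c)⁻¹ * q.map π * derivative (f.map π) =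
      C (π c)⁻¹ * (f.map π * p.map π + derivative (f.map π) * q.map π) := by ring
  rw [h4, h3, ← C_mul, inv_mul_cancel₀ hcc, C_1]

open Classical in
theorem exists_finset (f : (𝓞 F)[X]) (N : ℕ) :
    ∃ t : Finset (HeightOneSpectrum (𝓞 F)),
      Nat.card {v : HeightOneSpectrum (𝓞 F) // Ideal.absNorm v.asIdeal ≤ N} = t.card ∧
      (∀ φ : HeightOneSpectrum (𝓞 F) → ℝ,
        Pool.Agent.W529.ST.mean F φ N = (∑ v ∈ t, φ v) / (t.card : ℝ)) ∧
      ∀ d k m, moment f d k m N =
        (∑ v ∈ t.filter (Good f d), a f d k v ^ m) / ((t.filter (Good f d)).card : ℝ) := by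
  obtain ⟨t, ht, hcard, hmean⟩ := Pool.Agent.W529.ST.mean_def (F := F) (fun _ => 0) N
  refine ⟨t, hcard, hmean, fun d k m => ?_⟩
  let e : {v : HeightOneSpectrum (𝓞 F) // Ideal.absNorm v.asIdeal ≤ N ∧ Good f d v} ≃
      t.filter (Good f d) :=
    Equiv.subtypeEquivRight fun v => by rw [Finset.mem_filter, ht]
  have hfin : Finite {v : HeightOneSpectrum (𝓞 F) // Ideal.absNorm v.asIdeal ≤ N ∧ Good f d v} :=
    Finite.of_equiv _ e.symm
  let _ := Fintype.ofFinite {v : HeightOneSpectrum (𝓞 F) // Ideal.absNorm v.asIdeal ≤ N ∧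
    Good f d v}
  unfold moment
  congr 1
  · rw [finsum_eq_sum_of_fintype]
    have h1 : ∑ v : {v : HeightOneSpectrum (𝓞 F) // Ideal.absNorm v.asIdeal ≤ N ∧ Good f d v},
        a f d k v.1 ^ m = ∑ x : t.filter (Good f d), a f d k x.1 ^ m :=
      Fintype.sum_equiv e _ _ fun v => rfl
    rw [h1, Finset.sum_coe_sort (t.filter (Good f d)) (fun v => a f d k v ^ m)]
  · rw [Nat.card_congr e, Nat.card_eq_fintype_card, Fintype.card_coe]

end

/-- **Bessel's inequality for the odd moments.**  Let `F` be a number field, `f ∈ 𝓞_F[x]` separable of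
positive degree, `T` a finite set of nonzero elements of `𝓞_F` in different classes modulo squares of
`F`, and `η > 0`.  For all large `N` and all odd `k` and `m`, the sum over `d ∈ T` of the squares of the
`m`-th moments of `a_k` for `C_d` at the scale `N` is at most `1 + η` times the `2m`-th moment of `a_k`
for `C` at the scale `N`. -/
theorem result (F : Type) [Field F] [NumberField F] (f : (𝓞 F)[X])
    (hf : (f.map (algebraMap (𝓞 F) F)).Separable) (hn : 1 ≤ f.natDegree)
    (T : Finset (𝓞 F)) (hT : ∀ d ∈ T, d ≠ 0)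
    (hT' : ∀ d ∈ T, ∀ e ∈ T, d ≠ e → ¬ IsSquare ((d * e : 𝓞 F) : F)) (η : ℝ) (hη : 0 < η) :
    ∀ᶠ N : ℕ in atTop, ∀ k m : ℕ, Odd k → Odd m →
      ∑ d ∈ T, moment f d k m N ^ 2 ≤ (1 + η) * moment f 1 k (2 * m) N := by
  classical
  set ε : ℝ := min 1 (η / 7) with hε
  have hε0 : 0 < ε := lt_min zero_lt_one (by positivity)
  have hε1 : ε ≤ 1 := min_le_left _ _
  have hε7 : ε ≤ η / 7 := min_le_right _ _
  have hε3 : (1 + ε) ^ 3 ≤ 1 + η := by nlinarith [mul_nonneg hε0.le hε0.le]
  let b : 𝓞 F → ℕ := fun d => {v : HeightOneSpectrum (𝓞 F) | ¬ Good f d v}.ncard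
  have hev : ∀ᶠ N : ℕ in atTop, ∀ d ∈ T, (b d : ℝ) * (1 + ε) / ε ≤
      (Nat.card {v : HeightOneSpectrum (𝓞 F) // Ideal.absNorm v.asIdeal ≤ N} : ℝ) := by
    rw [Filter.eventually_all_finset]
    intro d _
    exact (Pool.Agent.W529.ST.card_atTop F).eventually_ge_atTop _
  filter_upwards [Pool.Agent.W529.ST.bessel_unif T hT hT' hε0, hev,
    Pool.Agent.W529.ST.card_pos F] with N hB hN hpos k m hk hm
  obtain ⟨t, hcard, hmean, hmom⟩ := exists_finset f N
  rw [hcard] at hN hpos
  have hn0 : (0 : ℝ) < t.card := by exact_mod_cast hpos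
  set h : HeightOneSpectrum (𝓞 F) → ℝ := fun v => if Good f 1 v then a f 1 k v ^ m else 0 with hh
  have hone : ∀ (d : 𝓞 F) (v : HeightOneSpectrum (𝓞 F)), 2 * d ∉ v.asIdeal →
      (Good f d v ↔ Good f 1 v) := by
    intro d v h2d
    unfold Good
    have : 2 * (1 : 𝓞 F) ∉ v.asIdeal := by
      intro h
      rw [mul_one] at h
      exact h2d (Ideal.mul_mem_right _ _ h)
    tauto
  have h1 : ∀ d ∈ T, moment f d k m N ^ 2 ≤ (1 + ε) ^ 2 *
      Pool.Agent.W529.ST.mean F (fun v => h v * Pool.Agent.W529.ST.ch d v) N ^ 2 := by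
    intro d hd
    have e1 : ∑ v ∈ t.filter (Good f d), a f d k v ^ m =
        ∑ v ∈ t, h v * Pool.Agent.W529.ST.ch d v := by
      rw [Finset.sum_filter]
      refine Finset.sum_congr rfl fun v _ => ?_
      by_cases h2d : 2 * d ∈ v.asIdeal
      · have e2 : Pool.Agent.W529.ST.ch d v = 0 := if_pos h2d
        rw [if_neg (fun hg => hg.1 h2d), e2, mul_zero]
      · rw [hh]
        simp only
        by_cases hg : Good f d v
        · rw [if_pos hg, if_pos ((hone d v h2d).1 hg), a_twist f k h2d, mul_pow, ← pow_mul]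
          rcases Pool.Agent.W529.ST.ch_dichotomy d h2d with ⟨_, h4⟩ | ⟨_, h4⟩
          · rw [h4, one_pow]
            ring
          · rw [h4, (hk.mul hm).neg_one_pow]
            ring
        · rw [if_neg hg, if_neg (fun h => hg ((hone d v h2d).2 h)), zero_mul]
    set nd : ℝ := ((t.filter (Good f d)).card : ℝ) with hnd
    have hbad : (t.card : ℝ) ≤ nd + b d := by
      have e2 : (t.filter fun v => ¬ Good f d v).card ≤ b d := by
        have hfin := finite_bad f hf hn (hT d hd)
        rw [← Set.ncard_coe_finset]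
        refine Set.ncard_le_ncard (fun v hv => ?_) hfin
        exact (Finset.mem_filter.1 (Finset.mem_coe.1 hv)).2
      have e3 := Finset.card_filter_add_card_filter_not (s := t) (Good f d)
      have e4 : t.card ≤ (t.filter (Good f d)).card + b d := by omega
      rw [hnd]
      exact_mod_cast e4
    have h2 := hN d hd
    rw [div_le_iff₀ hε0] at h2
    have h3 : (t.card : ℝ) ≤ (1 + ε) * nd := by nlinarith
    have hnd0 : 0 < nd := by
      by_contra h0
      have : (1 + ε) * nd ≤ 0 := mul_nonpos_of_nonneg_of_nonpos (by positivity) (not_lt.1 h0)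
      linarith
    rw [hmom, e1, hmean, div_pow, div_pow, ← mul_div_assoc, div_le_div_iff₀ (by positivity)
      (by positivity)]
    have h4 : (t.card : ℝ) ^ 2 ≤ (1 + ε) ^ 2 * nd ^ 2 := by
      rw [← mul_pow]
      exact pow_le_pow_left₀ hn0.le h3 2
    nlinarith [sq_nonneg (∑ v ∈ t, h v * Pool.Agent.W529.ST.ch d v)]
  have h2 : Pool.Agent.W529.ST.mean F (fun v => h v ^ 2) N ≤ moment f 1 k (2 * m) N := by
    have e1 : ∑ v ∈ t, h v ^ 2 = ∑ v ∈ t.filter (Good f 1), a f 1 k v ^ (2 * m) := by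
      rw [Finset.sum_filter]
      refine Finset.sum_congr rfl fun v _ => ?_
      rw [hh]
      simp only
      split_ifs
      · rw [← pow_mul, mul_comm m 2]
      · norm_num
    rw [hmom, hmean, e1]
    have e2 : 0 ≤ ∑ v ∈ t.filter (Good f 1), a f 1 k v ^ (2 * m) :=
      Finset.sum_nonneg fun v _ => by
        rw [pow_mul]
        exact pow_nonneg (sq_nonneg _) _
    rcases Nat.eq_zero_or_pos (t.filter (Good f 1)).card with h0 | h0
    · rw [Finset.card_eq_zero.1 h0]
      simp
    · refine div_le_div_of_nonneg_left e2 (by exact_mod_cast h0) ?_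
      exact_mod_cast Finset.card_filter_le _ _
  have h3 : 0 ≤ moment f 1 k (2 * m) N := by
    rw [hmom]
    exact div_nonneg (Finset.sum_nonneg fun v _ => by
      rw [pow_mul]
      exact pow_nonneg (sq_nonneg _) _) (Nat.cast_nonneg _)
  calc ∑ d ∈ T, moment f d k m N ^ 2 ≤ ∑ d ∈ T, (1 + ε) ^ 2 *
        Pool.Agent.W529.ST.mean F (fun v => h v * Pool.Agent.W529.ST.ch d v) N ^ 2 :=
        Finset.sum_le_sum h1
    _ = (1 + ε) ^ 2 * ∑ d ∈ T,
        Pool.Agent.W529.ST.mean F (fun v => h v * Pool.Agent.W529.ST.ch d v) N ^ 2 := by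
        rw [Finset.mul_sum]
    _ ≤ (1 + ε) ^ 2 * ((1 + ε) * Pool.Agent.W529.ST.mean F (fun v => h v ^ 2) N) :=
        mul_le_mul_of_nonneg_left (hB h) (by positivity)
    _ ≤ (1 + ε) ^ 2 * ((1 + ε) * moment f 1 k (2 * m) N) :=
        mul_le_mul_of_nonneg_left (mul_le_mul_of_nonneg_left h2 (by positivity)) (by positivity)
    _ = (1 + ε) ^ 3 * moment f 1 k (2 * m) N := by ring
    _ ≤ (1 + η) * moment f 1 k (2 * m) N := mul_le_mul_of_nonneg_right hε3 h3

end Pool.Agent.Results.MP_3da4c4_nt.OddMoments
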